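import Mathlib

/-!
# Injective homomorphism counts into the planes `PG(2,p)`: definitions

`H` is the incidence graph of the Möbius-Kantor configuration `8₃`: points and lines are the
elements of `ZMod 8`, and the line `j` contains the points `j`, `j + 1`, `j + 3`.
An injective homomorphism of `H` into the incidence graph of `PG(2,K)` exists if and only if
`z ^ 2 - z + 1` has a root in `K`. For `K = ZMod p` this holds for `p ≡ 1 mod 3` and fails for
`p ≡ 2 mod 3`, and by Dirichlet's theorem there are infinitely many primes of both kinds.
So `log_p inj (H, G_p)` is `-∞` infinitely often and nonnegative infinitely often.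
-/

set_option autoImplicit false

open Filter Topology Matrix
open scoped LinearAlgebra.Projectivization

namespace Pool.Agent.K3h60.MK

/-- A finite bipartite graph with labelled vertex classes `V₁`, `V₂` and edge set `E ⊆ V₁ × V₂`. -/
structure BipGraph where
  V₁ : Type
  V₂ : Type
  finite₁ : Finite V₁
  finite₂ : Finite V₂
  E : V₁ → V₂ → Prop

/-- The number of label-preserving homomorphisms `H → G` that are injective on vertices. -/
noncomputable def inj (H G : BipGraph) : ℕ :=
  Nat.card {f : (H.V₁ → G.V₁) × (H.V₂ → G.V₂) //
    (∀ x y, H.E x y → G.E (f.1 x) (f.2 y)) ∧ Function.Injective f.1 ∧ Function.Injective f.2}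

/-- The point-line incidence graph of the projective plane `PG(2,K)` over a finite field `K`:
points are the one-dimensional and lines the two-dimensional subspaces of `K ^ 3`. -/
def planeGraph (K : Type) [Field K] [Finite K] : BipGraph where
  V₁ := {P : Submodule K (Fin 3 → K) // Module.finrank K P = 1}
  V₂ := {L : Submodule K (Fin 3 → K) // Module.finrank K L = 2}
  finite₁ := inferInstance
  finite₂ := inferInstance
  E := fun P L => P.1 ≤ L.1

/-- `log_p inj (H, G_p)`, with the convention `log_p 0 = -∞`. -/
noncomputable def logInj (H : BipGraph) (p : Nat.Primes) : EReal :=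
  haveI : Fact (p : ℕ).Prime := ⟨p.2⟩
  if inj H (planeGraph (ZMod p)) = 0 then ⊥
  else ((Real.logb p (inj H (planeGraph (ZMod p))) : ℝ) : EReal)

/-- The `n`-th prime (`2` for `n = 0`). -/
noncomputable def nthPrime (n : ℕ) : Nat.Primes := ⟨Nat.nth Nat.Prime n, Nat.prime_nth_prime n⟩

/-- The incidence graph of the Möbius-Kantor configuration: the line `j` contains the points
`j`, `j + 1` and `j + 3`, modulo `8`. -/
def MK : BipGraph where
  V₁ := ZMod 8
  V₂ := ZMod 8
  finite₁ := inferInstance
  finite₂ := inferInstance
  E := fun i j => i = j ∨ i = j + 1 ∨ i = j + 3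

end Pool.Agent.K3h60.MK
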