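import Pool.Agent.K3h60.MK.Defs

set_option autoImplicit false

open Filter Topology Matrix
open scoped LinearAlgebra.Projectivization

namespace Pool.Agent.K3h60.MK

lemma algebra_core {K : Type} [Field K] (a3 b3 b4 c4 a5 b5 c5 a6 b6 c6 a7 c7 : K)
    (E1 : b5 * c6 = c5 * b6) (E2 : a3 * b5 = a5 * b3)
    (E3 : a3 * b4 * c6 - a3 * c4 * b6 + b3 * c4 * a6 = 0)
    (E4 : b4 * (c5 * a7 - a5 * c7) = c4 * b5 * a7)
    (E5 : a6 * c7 = c6 * a7) (hb3 : b3 ≠ 0) (hc6 : c6 ≠ 0) (hb4 : b4 ≠ 0)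
    (hc5 : c5 ≠ 0) (ha7 : a7 ≠ 0) : ∃ z : K, z ^ 2 - z + 1 = 0 := by
  have h1 : a5 * b4 * c6 - a5 * c4 * b6 + b5 * c4 * a6 = 0 := by
    apply mul_left_cancel₀ hb3
    linear_combination b5 * E3 - (b4 * c6 - c4 * b6) * E2
  have h2 : a5 * b4 * c5 * c7 - a5 * c4 * b5 * c7 + b5 * c4 * a7 * c5 = 0 := by
    apply mul_left_cancel₀ hc6
    linear_combination c5 * c7 * h1 - a5 * c4 * c7 * E1 - b5 * c4 * c5 * E5
  have h3 : (a5 * c7) ^ 2 - (a5 * c7) * (c5 * a7) + (c5 * a7) ^ 2 = 0 := by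
    apply mul_left_cancel₀ hb4
    linear_combination a7 * h2 + (c5 * a7 - a5 * c7) * E4
  refine ⟨(a5 * c7) / (c5 * a7), ?_⟩
  field_simp
  linear_combination h3

/-- brackets -/
def br {K : Type} [Field K] (u v w : Fin 3 → K) : K := Matrix.det !![u 0, u 1, u 2; v 0, v 1, v 2; w 0, w 1, w 2]

lemma br_eq {K : Type} [Field K] (u v w : Fin 3 → K) : br u v w = u 0 * v 1 * w 2 - u 0 * v 2 * w 1
    - u 1 * v 0 * w 2 + u 1 * v 2 * w 0 + u 2 * v 0 * w 1 - u 2 * v 1 * w 0 := by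
  simp [br, Matrix.det_fin_three]

lemma exists_of_br_zero {K : Type} [Field K] (u v w : Fin 3 → K) (h : br u v w = 0) :
    ∃ c : Fin 3 → K, c ≠ 0 ∧ c 0 • u + c 1 • v + c 2 • w = 0 := by
  obtain ⟨c, hc, h2⟩ := Matrix.exists_vecMul_eq_zero_iff.2 h
  refine ⟨c, hc, ?_⟩
  ext i
  have := congrFun h2 i
  fin_cases i <;> simpa [Matrix.vecMul, dotProduct, Fin.sum_univ_three] using this

lemma br_zero_of {K : Type} [Field K] (u v w : Fin 3 → K) (c : Fin 3 → K) (hc : c ≠ 0)
    (h : c 0 • u + c 1 • v + c 2 • w = 0) : br u v w = 0 := by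
  apply Matrix.exists_vecMul_eq_zero_iff.1
  refine ⟨c, hc, ?_⟩
  ext i
  have := congrFun h i
  fin_cases i <;> simpa [Matrix.vecMul, dotProduct, Fin.sum_univ_three] using this

/-- three vectors of a plane are dependent -/
lemma br_zero_of_mem {K : Type} [Field K] (L : Submodule K (Fin 3 → K)) (hL : Module.finrank K L = 2)
    (u v w : Fin 3 → K) (hu : u ∈ L) (hv : v ∈ L) (hw : w ∈ L) : br u v w = 0 := by
  have hdep : ¬ LinearIndependent K ![(⟨u, hu⟩ : L), ⟨v, hv⟩, ⟨w, hw⟩] := by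
    intro h
    have := h.fintype_card_le_finrank
    rw [hL] at this
    simp at this
  rw [Fintype.not_linearIndependent_iff] at hdep
  obtain ⟨c, h1, i, hi⟩ := hdep
  refine br_zero_of u v w c (fun h0 => hi (by rw [h0]; rfl)) ?_
  have := congrArg Subtype.val h1
  simpa [Fin.sum_univ_three] using this

lemma br_ne_zero {K : Type} [Field K] (L : Submodule K (Fin 3 → K))
    (u v w : Fin 3 → K) (hu : u ∈ L) (hv : v ∈ L) (hw : w ∉ L) (hu0 : u ≠ 0)
    (huv : Submodule.span K {u} ≠ Submodule.span K {v}) (hv0 : v ≠ 0) : br u v w ≠ 0 := by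
  intro h
  obtain ⟨c, hc, h2⟩ := exists_of_br_zero u v w h
  have h3 : c 2 = 0 := by
    by_contra h3
    apply hw
    have : w = (-(c 2)⁻¹ * c 0) • u + (-(c 2)⁻¹ * c 1) • v := by
      have h4 : c 2 • w = -(c 0 • u + c 1 • v) := by
        rw [eq_neg_iff_add_eq_zero, add_comm, h2]
      have h5 : w = (c 2)⁻¹ • (c 2 • w) := by rw [smul_smul, inv_mul_cancel₀ h3, one_smul]
      rw [h5, h4, smul_neg, smul_add, smul_smul, smul_smul]
      rw [neg_mul, neg_mul, neg_smul, neg_smul]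
      abel
    rw [this]
    exact L.add_mem (L.smul_mem _ hu) (L.smul_mem _ hv)
  rw [h3, zero_smul, add_zero] at h2
  by_cases h0 : c 0 = 0
  · rw [h0, zero_smul, zero_add, smul_eq_zero] at h2
    rcases h2 with h2 | h2
    · apply hc
      ext i
      fin_cases i
      · exact h0
      · exact h2
      · exact h3
    · exact hv0 h2
  · by_cases h1 : c 1 = 0
    · rw [h1, zero_smul, add_zero, smul_eq_zero] at h2
      rcases h2 with h2 | h2
      · exact h0 h2
      · exact hu0 h2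
    · apply huv
      apply le_antisymm
      · rw [Submodule.span_singleton_le_iff_mem, Submodule.mem_span_singleton]
        refine ⟨-(c 0)⁻¹ * c 1, ?_⟩
        have h4 : c 0 • u = -(c 1 • v) := by rw [eq_neg_iff_add_eq_zero, h2]
        have h5 : u = (c 0)⁻¹ • (c 0 • u) := by rw [smul_smul, inv_mul_cancel₀ h0, one_smul]
        rw [h5, h4, smul_neg, smul_smul, neg_mul, neg_smul]
      · rw [Submodule.span_singleton_le_iff_mem, Submodule.mem_span_singleton]
        refine ⟨-(c 1)⁻¹ * c 0, ?_⟩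
        have h4 : c 1 • v = -(c 0 • u) := by rw [eq_neg_iff_add_eq_zero, add_comm, h2]
        have h5 : v = (c 1)⁻¹ • (c 1 • v) := by rw [smul_smul, inv_mul_cancel₀ h1, one_smul]
        rw [h5, h4, smul_neg, smul_smul, neg_mul, neg_smul]

/-- two distinct points are on at most one line -/
lemma line_unique {K : Type} [Field K] (P Q L L' : Submodule K (Fin 3 → K))
    (hP : Module.finrank K P = 1) (hQ : Module.finrank K Q = 1) (hPQ : P ≠ Q)
    (hL : Module.finrank K L = 2) (hL' : Module.finrank K L' = 2)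
    (h1 : P ≤ L) (h2 : Q ≤ L) (h3 : P ≤ L') (h4 : Q ≤ L') : L = L' := by
  have key : ∀ M : Submodule K (Fin 3 → K), Module.finrank K M = 2 → P ≤ M → Q ≤ M → P ⊔ Q = M := by
    intro M hM hPM hQM
    apply Submodule.eq_of_le_of_finrank_le (sup_le hPM hQM)
    rw [hM]
    by_contra hlt
    push Not at hlt
    have h5 : Module.finrank K (P ⊔ Q : Submodule K (Fin 3 → K)) ≤ 1 := by omega
    have h6 : P = P ⊔ Q := Submodule.eq_of_le_of_finrank_le le_sup_left (by rw [hP]; exact h5)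
    have h7 : Q = P ⊔ Q := Submodule.eq_of_le_of_finrank_le le_sup_right (by rw [hQ]; exact h5)
    exact hPQ (h6.trans h7.symm)
  rw [← key L hL h1 h2, ← key L' hL' h3 h4]


section nonexist

variable {K : Type} [Field K]

/-- incidence relation of the configuration -/
abbrev inc (i j : ZMod 8) : Prop := i = j ∨ i = j + 1 ∨ i = j + 3

lemma inc_aux : ∀ i j : ZMod 8, ¬ inc i j → ∃ k l : ZMod 8, inc i k ∧ inc l k ∧ inc l j ∧ k ≠ j ∧ l ≠ i := by
  decide

lemma exists_root_of_inj (P : ZMod 8 → Submodule K (Fin 3 → K)) (L : ZMod 8 → Submodule K (Fin 3 → K))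
    (hP : ∀ i, Module.finrank K (P i) = 1) (hL : ∀ i, Module.finrank K (L i) = 2)
    (hPi : Function.Injective P) (hLi : Function.Injective L)
    (h : ∀ i j, inc i j → P i ≤ L j) : ∃ z : K, z ^ 2 - z + 1 = 0 := by
  have hnon : ∀ i j, ¬ inc i j → ¬ P i ≤ L j := by
    intro i j hij hle
    obtain ⟨k, l, h1, h2, h3, h4, h5⟩ := inc_aux i j hij
    exact h4 (hLi (line_unique (P i) (P l) (L k) (L j) (hP i) (hP l) (fun e => h5 (hPi e).symm)
      (hL k) (hL j) (h i k h1) (h l k h2) hle (h l j h3)))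
  have hv : ∀ i, ∃ v : Fin 3 → K, v ≠ 0 ∧ P i = Submodule.span K {v} := by
    intro i
    obtain ⟨v, hv0, hv⟩ := finrank_eq_one_iff'.1 (hP i)
    refine ⟨v, fun h0 => hv0 (Subtype.ext h0), ?_⟩
    apply le_antisymm
    · intro w hw
      obtain ⟨c, hc⟩ := hv ⟨w, hw⟩
      rw [Submodule.mem_span_singleton]
      exact ⟨c, congrArg Subtype.val hc⟩
    · rw [Submodule.span_singleton_le_iff_mem]
      exact v.2
  choose v hv0 hv using hv
  have hmem : ∀ i j, inc i j → v i ∈ L j := by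
    intro i j hij
    have := h i j hij
    rw [hv i, Submodule.span_singleton_le_iff_mem] at this
    exact this
  have hnmem : ∀ i j, ¬ inc i j → v i ∉ L j := by
    intro i j hij hm
    apply hnon i j hij
    rw [hv i, Submodule.span_singleton_le_iff_mem]
    exact hm
  have hspan : ∀ i j, i ≠ j → Submodule.span K {v i} ≠ Submodule.span K {v j} := by
    intro i j hij he
    rw [← hv i, ← hv j] at he
    exact hij (hPi he)
  have hz : ∀ j a b c : ZMod 8, inc a j → inc b j → inc c j → br (v a) (v b) (v c) = 0 :=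
    fun j a b c h1 h2 h3 => br_zero_of_mem (L j) (hL j) _ _ _ (hmem a j h1) (hmem b j h2) (hmem c j h3)
  have hnz : ∀ j a b c : ZMod 8, inc a j → inc b j → ¬ inc c j → a ≠ b → br (v a) (v b) (v c) ≠ 0 :=
    fun j a b c h1 h2 h3 h4 => br_ne_zero (L j) _ _ _ (hmem a j h1) (hmem b j h2) (hnmem c j h3) (hv0 a)
      (hspan a b h4) (hv0 b)
  -- change of basis
  have hd : br (v 0) (v 1) (v 2) ≠ 0 := hnz 0 0 1 2 (by decide) (by decide) (by decide) (by decide)
  set d := br (v 0) (v 1) (v 2) with hdd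
  -- coordinates by Cramer's rule
  have key : ∀ p q r : Fin 3 → K, br p q r * d ^ 2 =
      Matrix.det !![br p (v 1) (v 2), br (v 0) p (v 2), br (v 0) (v 1) p;
        br q (v 1) (v 2), br (v 0) q (v 2), br (v 0) (v 1) q;
        br r (v 1) (v 2), br (v 0) r (v 2), br (v 0) (v 1) r] := by
    intro p q r
    have hA : Matrix.det !![v 1 1 * v 2 2 - v 1 2 * v 2 1, v 2 1 * v 0 2 - v 2 2 * v 0 1,
          v 0 1 * v 1 2 - v 0 2 * v 1 1;
        v 1 2 * v 2 0 - v 1 0 * v 2 2, v 2 2 * v 0 0 - v 2 0 * v 0 2,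
          v 0 2 * v 1 0 - v 0 0 * v 1 2;
        v 1 0 * v 2 1 - v 1 1 * v 2 0, v 2 0 * v 0 1 - v 2 1 * v 0 0,
          v 0 0 * v 1 1 - v 0 1 * v 1 0] = d ^ 2 := by
      rw [hdd, br_eq, Matrix.det_fin_three]
      simp
      ring
    rw [← hA, br, ← Matrix.det_mul]
    congr 1
    ext i j
    fin_cases i <;> fin_cases j <;> simp [Matrix.mul_apply, Fin.sum_univ_three, br_eq] <;> ring
  have hz' : ∀ p q r : Fin 3 → K, br p q r = 0 →
      Matrix.det !![br p (v 1) (v 2), br (v 0) p (v 2), br (v 0) (v 1) p;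
        br q (v 1) (v 2), br (v 0) q (v 2), br (v 0) (v 1) q;
        br r (v 1) (v 2), br (v 0) r (v 2), br (v 0) (v 1) r] = 0 := by
    intro p q r h
    rw [← key, h, zero_mul]
  have self1 : ∀ p q : Fin 3 → K, br p p q = 0 := by intro p q; rw [br_eq]; ring
  have self2 : ∀ p q : Fin 3 → K, br p q q = 0 := by intro p q; rw [br_eq]; ring
  have self3 : ∀ p q : Fin 3 → K, br p q p = 0 := by intro p q; rw [br_eq]; ring
  have c3 : br (v 0) (v 1) (v 3) = 0 := hz 0 0 1 3 (by decide) (by decide) (by decide)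
  have a4 : br (v 4) (v 1) (v 2) = 0 := hz 1 4 1 2 (by decide) (by decide) (by decide)
  have b7 : br (v 0) (v 7) (v 2) = 0 := hz 7 0 7 2 (by decide) (by decide) (by decide)
  have e560 := hz' _ _ _ (hz 5 5 6 0 (by decide) (by decide) (by decide))
  have e235 := hz' _ _ _ (hz 2 2 3 5 (by decide) (by decide) (by decide))
  have e346 := hz' _ _ _ (hz 3 3 4 6 (by decide) (by decide) (by decide))
  have e457 := hz' _ _ _ (hz 4 4 5 7 (by decide) (by decide) (by decide))
  have e671 := hz' _ _ _ (hz 6 6 7 1 (by decide) (by decide) (by decide))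
  have hb3 : br (v 0) (v 3) (v 2) ≠ 0 := by
    have := hnz 7 0 2 3 (by decide) (by decide) (by decide) (by decide)
    intro h0
    apply this
    rw [br_eq] at h0 ⊢
    linear_combination -h0
  have hc6 : br (v 0) (v 1) (v 6) ≠ 0 := hnz 0 0 1 6 (by decide) (by decide) (by decide) (by decide)
  have hb4 : br (v 0) (v 4) (v 2) ≠ 0 := by
    have := hnz 7 0 2 4 (by decide) (by decide) (by decide) (by decide)
    intro h0
    apply this
    rw [br_eq] at h0 ⊢
    linear_combination -h0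
  have hc5 : br (v 0) (v 1) (v 5) ≠ 0 := hnz 0 0 1 5 (by decide) (by decide) (by decide) (by decide)
  have ha7 : br (v 7) (v 1) (v 2) ≠ 0 := by
    have := hnz 1 1 2 7 (by decide) (by decide) (by decide) (by decide)
    intro h0
    apply this
    rw [br_eq] at h0 ⊢
    linear_combination h0
  simp only [Matrix.det_fin_three, Matrix.of_apply, Matrix.cons_val', Matrix.cons_val_zero,
    Matrix.cons_val_one, Matrix.cons_val_fin_one, Matrix.cons_val, self1, self2, self3, c3, a4, b7,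
    mul_zero, zero_mul, sub_zero, zero_sub, add_zero, zero_add, ← hdd] at e560 e235 e346 e457 e671
  refine algebra_core (br (v 3) (v 1) (v 2)) (br (v 0) (v 3) (v 2)) (br (v 0) (v 4) (v 2))
    (br (v 0) (v 1) (v 4)) (br (v 5) (v 1) (v 2)) (br (v 0) (v 5) (v 2)) (br (v 0) (v 1) (v 5))
    (br (v 6) (v 1) (v 2)) (br (v 0) (v 6) (v 2)) (br (v 0) (v 1) (v 6)) (br (v 7) (v 1) (v 2))
    (br (v 0) (v 1) (v 7)) ?_ ?_ ?_ ?_ ?_ hb3 hc6 hb4 hc5 ha7
  · apply mul_left_cancel₀ hd
    linear_combination e560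
  · apply mul_left_cancel₀ hd
    linear_combination e235
  · linear_combination e346
  · linear_combination e457
  · apply mul_left_cancel₀ hd
    linear_combination -e671

end nonexist

section exist

variable {K : Type} [Field K]

/-- the points -/
def pt (z : K) : Fin 8 → Fin 3 → K :=
  ![![1, 0, 0], ![0, 1, 0], ![0, 0, 1], ![1, 1, 0], ![0, 1, 1 - z], ![1, 1, 1], ![1 - z, 1, 1], ![1, 0, z]]

/-- the lines -/
def ln (z : K) : Fin 8 → Fin 3 → K :=
  ![![0, 0, 1], ![1, 0, 0], ![1, -1, 0], ![1 - z, z - 1, 1], ![-z, z - 1, 1], ![0, 1, -1], ![-z, 0, 1], ![0, 1, 0]]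

/-- the table of all values -/
def tb (z : K) : Fin 8 → Fin 8 → K :=
  ![![0, 1, 1, 1 - z, -z, 0, -z, 0], ![0, 0, -1, z - 1, z - 1, 1, 0, 1], ![1, 0, 0, 1, 1, -1, 1, 0],
    ![0, 1, 0, 0, -1, 1, -z, 1], ![1 - z, 0, -1, 0, 0, z, 1 - z, 1], ![1, 1, 0, 1, 0, 0, 1 - z, 1],
    ![1, 1 - z, -z, 0, z - 1, 0, 0, 1], ![z, 1, 1, 1, 0, -z, 0, 0]]

lemma dot_eq (z : K) (hz : z ^ 2 - z + 1 = 0) (i j : Fin 8) : pt z i ⬝ᵥ ln z j = tb z i j := by
  fin_cases i <;> fin_cases j <;> simp [pt, ln, tb, dotProduct, Fin.sum_univ_three] <;>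
    first | done | ring1 | linear_combination hz

lemma tb_zero (z : K) (hz : z ^ 2 - z + 1 = 0) (i j : Fin 8) :
    tb z i j = 0 ↔ (i = j ∨ i = j + 1 ∨ i = j + 3) := by
  have h0 : z ≠ 0 := by rintro rfl; simp at hz
  have h1 : (1 - z) ≠ 0 := by
    intro h
    have : z = 1 := by linear_combination -h
    rw [this] at hz; simp at hz
  have h2 : (z - 1) ≠ 0 := by
    intro h
    apply h1; linear_combination -h
  fin_cases i <;> fin_cases j <;> simp [tb, h0, h1, h2]

/-- the point as a subspace -/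
def ptS (z : K) (i : Fin 8) : Submodule K (Fin 3 → K) := Submodule.span K {pt z i}

/-- the functional of the line -/
def lnF (z : K) (j : Fin 8) : (Fin 3 → K) →ₗ[K] K where
  toFun v := v ⬝ᵥ ln z j
  map_add' u v := add_dotProduct u v _
  map_smul' c v := smul_dotProduct c v _

/-- the line as a subspace -/
def lnS (z : K) (j : Fin 8) : Submodule K (Fin 3 → K) := LinearMap.ker (lnF z j)

lemma pt_ne (z : K) (i : Fin 8) : pt z i ≠ 0 := by
  fin_cases i <;> simp [pt]

lemma ptS_finrank (z : K) (i : Fin 8) : Module.finrank K (ptS z i) = 1 :=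
  finrank_span_singleton (pt_ne z i)

lemma lnF_ne (z : K) (j : Fin 8) : lnF z j ≠ 0 := by
  have : ∀ j, ∃ v : Fin 3 → K, v ⬝ᵥ ln z j ≠ 0 := by
    intro j
    fin_cases j
    · exact ⟨![0, 0, 1], by simp [ln, dotProduct, Fin.sum_univ_three]⟩
    · exact ⟨![1, 0, 0], by simp [ln, dotProduct, Fin.sum_univ_three]⟩
    · exact ⟨![1, 0, 0], by simp [ln, dotProduct, Fin.sum_univ_three]⟩
    · exact ⟨![0, 0, 1], by simp [ln, dotProduct, Fin.sum_univ_three]⟩
    · exact ⟨![0, 0, 1], by simp [ln, dotProduct, Fin.sum_univ_three]⟩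
    · exact ⟨![0, 1, 0], by simp [ln, dotProduct, Fin.sum_univ_three]⟩
    · exact ⟨![0, 0, 1], by simp [ln, dotProduct, Fin.sum_univ_three]⟩
    · exact ⟨![0, 1, 0], by simp [ln, dotProduct, Fin.sum_univ_three]⟩
  obtain ⟨v, hv⟩ := this j
  intro h0
  exact hv (LinearMap.congr_fun h0 v)

lemma lnS_finrank (z : K) (j : Fin 8) : Module.finrank K (lnS z j) = 2 := by
  have h1 := LinearMap.finrank_range_add_finrank_ker (lnF z j)
  have h2 : LinearMap.range (lnF z j) = ⊤ := by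
    rw [LinearMap.range_eq_top]
    exact LinearMap.surjective (lnF_ne z j)
  rw [h2, finrank_top, Module.finrank_self, Module.finrank_fin_fun] at h1
  unfold lnS
  omega

lemma ptS_le (z : K) (hz : z ^ 2 - z + 1 = 0) (i j : Fin 8) :
    ptS z i ≤ lnS z j ↔ (i = j ∨ i = j + 1 ∨ i = j + 3) := by
  rw [← tb_zero z hz, ← dot_eq z hz, ptS, Submodule.span_singleton_le_iff_mem]
  rfl

lemma ptS_inj (z : K) (hz : z ^ 2 - z + 1 = 0) : Function.Injective (ptS z) := by
  have hd : ∀ i i' : Fin 8, (∀ j : Fin 8, (i = j ∨ i = j + 1 ∨ i = j + 3) ↔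
      (i' = j ∨ i' = j + 1 ∨ i' = j + 3)) → i = i' := by decide
  intro i i' h
  apply hd
  intro j
  rw [← ptS_le z hz, ← ptS_le z hz, h]

lemma lnS_inj (z : K) (hz : z ^ 2 - z + 1 = 0) : Function.Injective (lnS z) := by
  have hd : ∀ j j' : Fin 8, (∀ i : Fin 8, (i = j ∨ i = j + 1 ∨ i = j + 3) ↔
      (i = j' ∨ i = j' + 1 ∨ i = j' + 3)) → j = j' := by decide
  intro j j' h
  apply hd
  intro i
  rw [← ptS_le z hz, ← ptS_le z hz, h]

end exist
section roots

lemma root_of_mod (p : ℕ) [hp : Fact p.Prime] (h : p % 3 = 1) : ∃ z : ZMod p, z ^ 2 - z + 1 = 0 := by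
  have h3 : 3 ∣ Fintype.card (ZMod p)ˣ := by
    rw [ZMod.card_units]; omega
  have : Fact (Nat.Prime 3) := ⟨Nat.prime_three⟩
  obtain ⟨u, hu⟩ := exists_prime_orderOf_dvd_card 3 h3
  have h1 : u ^ 3 = 1 := by rw [← hu]; exact pow_orderOf_eq_one u
  have h2 : u ≠ 1 := by
    rintro rfl
    rw [orderOf_one] at hu
    omega
  have h4 : (u : ZMod p) ^ 3 = 1 := by
    rw [← Units.val_pow_eq_pow_val, h1, Units.val_one]
  have h5 : (u : ZMod p) - 1 ≠ 0 := by
    intro h0
    apply h2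
    ext
    rw [Units.val_one]
    linear_combination h0
  refine ⟨-(u : ZMod p), ?_⟩
  apply mul_left_cancel₀ h5
  linear_combination h4

lemma no_root_of_mod (p : ℕ) [hp : Fact p.Prime] (h : p % 3 = 2) : ¬ ∃ z : ZMod p, z ^ 2 - z + 1 = 0 := by
  rintro ⟨z, hz⟩
  have h1 : (-z) ^ 3 = 1 := by linear_combination (-z - 1) * hz
  have h2 : -z ≠ 1 := by
    intro h2
    have h3 : z = -1 := by linear_combination -h2
    rw [h3] at hz
    have h4 : ((3 : ℕ) : ZMod p) = 0 := by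
      push_cast
      linear_combination hz
    rw [ZMod.natCast_eq_zero_iff] at h4
    have h5 := (Nat.prime_dvd_prime_iff_eq hp.out Nat.prime_three).1 h4
    omega
  have h0 : z ≠ 0 := by
    rintro rfl
    simp at hz
  have : Fact (Nat.Prime 3) := ⟨Nat.prime_three⟩
  have h6 : orderOf (-z) = 3 := orderOf_eq_prime h1 h2
  have h7 := orderOf_dvd_of_pow_eq_one (ZMod.pow_card_sub_one_eq_one (neg_ne_zero.2 h0))
  rw [h6] at h7
  have := hp.out.two_le
  omega

end roots

section main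

lemma inj_ne_zero_iff (K : Type) [Field K] [Finite K] :
    inj MK (planeGraph K) ≠ 0 ↔ ∃ z : K, z ^ 2 - z + 1 = 0 := by
  constructor
  · intro h
    obtain ⟨⟨⟨f, g⟩, h1, h2, h3⟩⟩ := (Nat.card_ne_zero.1 h).1
    exact exists_root_of_inj (fun i => (f i).1) (fun j => (g j).1) (fun i => (f i).2) (fun j => (g j).2)
      (fun a b e => h2 (Subtype.ext e)) (fun a b e => h3 (Subtype.ext e)) (fun i j hij => h1 i j hij)
  · rintro ⟨z, hz⟩
    have : Finite MK.V₁ := MK.finite₁
    have : Finite MK.V₂ := MK.finite₂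
    have : Finite (planeGraph K).V₁ := (planeGraph K).finite₁
    have : Finite (planeGraph K).V₂ := (planeGraph K).finite₂
    apply Nat.card_ne_zero.2
    refine ⟨⟨⟨((fun i => ⟨ptS z i, ptS_finrank z i⟩ : ZMod 8 → _),
      (fun j => ⟨lnS z j, lnS_finrank z j⟩ : ZMod 8 → _)), ?_, ?_, ?_⟩⟩, inferInstance⟩
    · intro i j hij
      exact (ptS_le z hz i j).2 hij
    · intro a b e
      exact ptS_inj z hz (congrArg Subtype.val e)
    · intro a b e
      exact lnS_inj z hz (congrArg Subtype.val e)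

lemma inj_zero (p : ℕ) [Fact p.Prime] (h : p % 3 = 2) : inj MK (planeGraph (ZMod p)) = 0 := by
  by_contra h0
  exact no_root_of_mod p h ((inj_ne_zero_iff _).1 h0)

lemma inj_ne_zero (p : ℕ) [Fact p.Prime] (h : p % 3 = 1) : inj MK (planeGraph (ZMod p)) ≠ 0 :=
  (inj_ne_zero_iff _).2 (root_of_mod p h)

lemma logInj_bot (p : Nat.Primes) (h : (p : ℕ) % 3 = 2) : logInj MK p = ⊥ := by
  have : Fact (p : ℕ).Prime := ⟨p.2⟩
  unfold logInj
  rw [if_pos (inj_zero p h)]

lemma logInj_nonneg (p : Nat.Primes) (h : (p : ℕ) % 3 = 1) : 0 ≤ logInj MK p := by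
  have : Fact (p : ℕ).Prime := ⟨p.2⟩
  have h1 := inj_ne_zero (p : ℕ) h
  unfold logInj
  rw [if_neg h1]
  have h2 : (0 : ℝ) ≤ Real.logb p (inj MK (planeGraph (ZMod p))) := by
    apply Real.logb_nonneg
    · exact_mod_cast p.2.one_lt
    · exact_mod_cast Nat.one_le_iff_ne_zero.2 h1
  exact_mod_cast h2

lemma freq_mod (a : ℕ) (ha : a = 1 ∨ a = 2) : ∃ᶠ n in atTop, (nthPrime n : ℕ) % 3 = a := by
  rw [frequently_atTop]
  intro N
  have hu : IsUnit ((a : ℕ) : ZMod 3) := by
    rcases ha with rfl | rfl <;> decide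
  obtain ⟨p, hp1, hp2, hp3⟩ := Nat.forall_exists_prime_gt_and_eq_mod hu (Nat.nth Nat.Prime N)
  have h5 : Nat.nth Nat.Prime (Nat.count Nat.Prime p) = p := Nat.nth_count hp2
  refine ⟨Nat.count Nat.Prime p, ?_, ?_⟩
  · by_contra hlt
    have h6 : Nat.nth Nat.Prime (Nat.count Nat.Prime p) < Nat.nth Nat.Prime N :=
      Nat.nth_strictMono Nat.infinite_setOfPred_prime (not_le.1 hlt)
    rw [h5] at h6
    exact absurd h6 (not_lt.2 (le_of_lt hp1))
  · have h4 : ((p : ℕ) : ZMod 3) = (a : ℕ) := hp3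
    rw [ZMod.natCast_eq_natCast_iff'] at h4
    change Nat.nth Nat.Prime (Nat.count Nat.Prime p) % 3 = a
    rw [h5]
    rcases ha with rfl | rfl <;> simpa using h4

end main

end Pool.Agent.K3h60.MK
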